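import Mathlib

set_option autoImplicit false

/-! # Plane curves with tame subcurves: the definitions

All polynomials are forms in three variables over `ℂ`; points `z ≠ 0` of `ℂ³` stand for the points of the
projective plane. -/

namespace Pool.Agent.H942.TM

open MvPolynomial Filter Topology

/-- The multiplicity of `H` at `z` is at most `m`: the Taylor expansion `H(z + y)` has a nonzero homogeneous
part of a degree `≤ m` in `y`. -/
def MultLE (m : ℕ) (H : MvPolynomial (Fin 3) ℂ) (z : Fin 3 → ℂ) : Prop :=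
  ∃ k ≤ m, homogeneousComponent k (aeval (fun i => C (z i) + X i) H : MvPolynomial (Fin 3) ℂ) ≠ 0

/-- **Ordinary double points.** Only the multiples of `z` are in the kernel of the Hessian matrix
of `H` at `z` (it has rank `2`). -/
def NodeAt (H : MvPolynomial (Fin 3) ℂ) (z : Fin 3 → ℂ) : Prop :=
  ∀ w : Fin 3 → ℂ, (∀ i, ∑ j, eval z (pderiv i (pderiv j H)) * w j = 0) → ∃ c : ℂ, w = c • z

/-- **Non-resonant quasi-homogeneous points.** There is a homogeneous vector field `∑ θ i ∂ i`
with `∑ θ i ∂ i f = 0`, which fixes the point `z` of the projective plane, `θ (z) = c z`, and whose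
action on the tangent space of the plane at `z` has integer eigenvalues `w1`, `w2`: the
characteristic polynomial of its Jacobian matrix at `z` is `(s - k c) (s - c - w1) (s - c - w2)`;
the number `3 c` is not an integer. (If `f` has weight `N` at `z` for positive weights `w1`, `w2`
of local coordinates, then `c = -N / d`.) -/
def QHAt (f : MvPolynomial (Fin 3) ℂ) (z : Fin 3 → ℂ) : Prop :=
  ∃ (k : ℕ) (θ : Fin 3 → MvPolynomial (Fin 3) ℂ) (c : ℂ) (w1 w2 : ℤ),
    (∀ i, (θ i).IsHomogeneous k) ∧ ∑ i, θ i * pderiv i f = 0 ∧ (∀ i, eval z (θ i) = c * z i) ∧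
    (∀ s : ℂ, (s • (1 : Matrix (Fin 3) (Fin 3) ℂ) -
      Matrix.of fun i j => eval z (pderiv j (θ i))).det = (s - k * c) * (s - c - w1) *
        (s - c - w2)) ∧
    ∀ m : ℤ, 3 * c ≠ m

/-- The curves `p = 0` and `q = 0` have at least `N` different common points. -/
def ManyPts (N : ℕ) (p q : MvPolynomial (Fin 3) ℂ) : Prop :=
  ∃ P : Fin N → Fin 3 → ℂ, (∀ b, P b ≠ 0 ∧ eval (P b) p = 0 ∧ eval (P b) q = 0) ∧
    ∀ b b', b ≠ b' → ∀ c : ℂ, P b ≠ c • P b'

/-- A linear vector field `∑ (B z) i ∂ i` which annihilates the form has trace `0`. -/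
def TrZero (f : MvPolynomial (Fin 3) ℂ) : Prop :=
  ∀ B : Matrix (Fin 3) (Fin 3) ℂ, ∑ i, (∑ j, C (B i j) * X j) * pderiv i f = 0 → B.trace = 0

/-- the distance of `y` to the line of `z` (up to a constant): the sum of the absolute values of the
`2 × 2` minors of `(y, z)` -/
noncomputable def crs (y z : Fin 3 → ℂ) : ℝ := ∑ i, ∑ j, ‖y i * z j - y j * z i‖

/-- The point `z` of the curve `H = 0` is at most a double point (with no other condition), or a
non-resonant quasi-homogeneous point of `f`, or, on the curve, the squared distance to `z` times the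
forms `g₁`, `g₂` is small against the gradient of `H`:
`dist (y, ℂ z) ^ 2 * (|g₁ y| + |g₂ y|) = o (|∇ H y|)` for `y → z`, `H y = 0`. (This is a condition on the
orders of `g₁`, `g₂` along the branches of the curve at `z`.) -/
def TameAt (f H g₁ g₂ : MvPolynomial (Fin 3) ℂ) (z : Fin 3 → ℂ) : Prop :=
  MultLE 2 H z ∨ QHAt f z ∨ ∀ ε : ℝ, 0 < ε → ∀ᶠ y in 𝓝 z, eval y H = 0 →
    crs y z ^ 2 * (‖eval y g₁‖ + ‖eval y g₂‖) ≤ ε * ∑ i, ‖eval y (pderiv i H)‖

/-- **Forms whose curve has a tame subcurve.** The reduced curve `f = 0` is the union of `H = 0` (of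
degree `e`) and `g_1 = 0, …, g_r = 0` (of degrees `n_j`); let `D_j = H ∏_{l < j} g_l`.
* There are relatively prime forms `g₁`, `g₂` of degree `κ`, `2 κ + 3 < e`, such that each singular point
  of `H = 0` is at most a double point, or a non-resonant quasi-homogeneous point of `f`, or
  `dist ^ 2 (|g₁| + |g₂|) = o (|∇ H|)` on `H = 0` (`TameAt`);
* for every `j`, `g_j` is irreducible and has more than `3 n_j` points on the curve `D_j = 0`, or the
  multiplicities of `D_j = 0` at the common points (those which are not non-resonant quasi-homogeneous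
  points of `f`) are at most `m`, where `3 m < deg D_j`;
* the singular points of `H = 0` are nodes, or a form `H'` which divides `f` has only points with
  multiplicities `≤ M < deg H' / 2`, or the linear vector fields which annihilate `f` have trace `0`. -/
def Tame (f : MvPolynomial (Fin 3) ℂ) : Prop :=
  ∃ (r k e κ : ℕ) (n : Fin r → ℕ) (H g₁ g₂ : MvPolynomial (Fin 3) ℂ)
    (g : Fin r → MvPolynomial (Fin 3) ℂ),
    H.IsHomogeneous e ∧ (∀ j, (g j).IsHomogeneous (n j)) ∧
    Squarefree (H * ∏ j, g j) ∧ H * ∏ j, g j ∣ f ∧ f ∣ (H * ∏ j, g j) ^ k ∧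
    g₁.IsHomogeneous κ ∧ g₂.IsHomogeneous κ ∧ IsRelPrime g₁ g₂ ∧ 2 * κ + 3 < e ∧
    (∀ z : Fin 3 → ℂ, z ≠ 0 → eval z H = 0 → (∀ i, eval z (pderiv i H) = 0) →
      TameAt f H g₁ g₂ z) ∧
    (∀ j, (Irreducible (g j) ∧
        ManyPts (3 * n j + 1) (g j) (H * ∏ l ∈ Finset.univ.filter (· < j), g l)) ∨
      ∃ m, 3 * m < e + ∑ l ∈ Finset.univ.filter (· < j), n l ∧ ∀ z : Fin 3 → ℂ, z ≠ 0 →
        eval z (g j) = 0 → eval z (H * ∏ l ∈ Finset.univ.filter (· < j), g l) = 0 →
        MultLE m (H * ∏ l ∈ Finset.univ.filter (· < j), g l) z ∨ QHAt f z) ∧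
    ((∀ z : Fin 3 → ℂ, z ≠ 0 → eval z H = 0 → (∀ i, eval z (pderiv i H) = 0) → NodeAt H z) ∨
      (∃ (e' M : ℕ) (H' : MvPolynomial (Fin 3) ℂ), H'.IsHomogeneous e' ∧ H' ∣ f ∧ 2 * M < e' ∧
        ∀ z : Fin 3 → ℂ, z ≠ 0 → eval z H' = 0 → MultLE M H' z) ∨ TrZero f)

/-- **Forms which are divisible by a form with mild singularities**: `H ∣ f` is squarefree of degree
`e > 3 m`, where `m = 1` or `m = 2`, and all points of the curve `H = 0` have multiplicities `≤ m` on
this curve, or are non-resonant quasi-homogeneous points of `f` which have multiplicities `< e / 2` on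
the curve `H = 0`. There is no condition on the form `f / H`. (These forms are in the class `Tame`.) -/
def DivSub (f : MvPolynomial (Fin 3) ℂ) : Prop :=
  ∃ (e m M : ℕ) (H : MvPolynomial (Fin 3) ℂ), 1 ≤ m ∧ m ≤ 2 ∧ 3 * m < e ∧ 2 * M < e ∧
    H.IsHomogeneous e ∧ Squarefree H ∧ H ∣ f ∧
    ∀ z : Fin 3 → ℂ, z ≠ 0 → eval z H = 0 → MultLE M H z ∧ (MultLE m H z ∨ QHAt f z)

end Pool.Agent.H942.TM
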