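import Pool.Agent.H942.TM.Cls
import Pool.Agent.H942.LP.Sub

set_option autoImplicit false
set_option linter.unusedSectionVars false
set_option linter.unusedVariables false

/-! # The roots and the zeta functions -/

namespace Pool.Agent.H942.TM

open MvPolynomial Pool.Agent.H940.P
open Pool.Agent.Y229 (SF)
open Pool.Agent.H628R4.TP (IsBFunction)

theorem tame_lp {f : MvPolynomial (Fin 3) ℂ} (h : Tame f) : LP.Tame f := h

theorem divSub_lp {f : MvPolynomial (Fin 3) ℂ} (h : DivSub f) : LP.DivSub f := h

theorem or_lp {f : MvPolynomial (Fin 3) ℂ} {d : ℕ} (hf0 : f ≠ 0) (hf : f.IsHomogeneous d)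
    (h : DivSub f ∨ Tame f) : LP.Tame f :=
  h.elim (fun h => (divSub_lp h).tame hf hf0) tame_lp

end Pool.Agent.H942.TM
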